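import Pool.Agent.H8.AV3.Stmts4
import Pool.Agent.H64.AV3.FN1

/-!
# FN2: the final assembly of stage 2 of the three-descent
-/

set_option autoImplicit false

namespace Pool.Agent.H58.AV3B

open Polynomial Matrix Pool.AVR Pool.AV3

theorem fn2_of (hLMU : Pool.AV3.LMU3Stmt) (hEMB : Pool.AV3.EMB3Stmt) (hRKO : Pool.AV3.RKOStmt)
    (hELN : Pool.AV3.ELNStmt) (hRNK : Pool.AV3.RNKStmt) (hCNF : Pool.AVR.CNFStmt) :
    Pool.AV3.FN2Stmt := by
  classical
  intro F _ _ h2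
  obtain ⟨C, hC⟩ := hRKO F h2
  have hq2 : 2 ≤ Nat.card F := Finite.one_lt_card
  have hFG : ∀ n : ℕ, ∀ f ∈ Ell F n, AddGroup.FG (EK f) := fun n f hf => (hC n f hf).1
  have hmono : ∀ n m, n ≤ m → Ell F n ⊆ Ell F m := by
    intro n m hnm f hf
    refine ⟨⟨hf.1.1.trans ?_, hf.1.2.1.trans ?_, hf.1.2.2.trans ?_⟩, hf.2⟩ <;> omega
  have hmonoE : ∀ n m, n ≤ m → El F n ⊆ El F m := fun n m hnm f hf => ⟨hmono n m hnm hf.1, hf.2⟩
  have hSel : ∀ n, ∀ f ∈ El F n, Finite (Sel3 f) := by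
    intro n f hf
    obtain ⟨N, hN⟩ := hLMU F h2 1 one_pos
    exact (hN (max n N) (le_max_right _ _)).1 f (hmonoE _ _ (le_max_left _ _) hf)
  have h3 : ∀ n : ℕ, ∀ f ∈ El F n, Finite (Sel3 f) ∧
      Nat.card (Mod3 (EK f)) ≤ Nat.card (Sel3 f) ∧
      3 ^ Module.finrank ℤ (EK f) ≤ Nat.card (Mod3 (EK f)) := by
    intro n f hf
    exact ⟨hSel n f hf, (hEMB F h2 n f hf (hSel n f hf)).2, (hRNK (EK f) (hFG n f hf.1)).2.1⟩
  refine ⟨hFG, h3, ?_, ?_⟩
  · intro n hn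
    obtain ⟨c1, c2, _⟩ := hCNF F h2 n hn
    obtain ⟨e1, e2, e3, e4, e5⟩ := hELN F h2 n hn
    refine ⟨c2, ?_⟩
    have hs : {f ∈ Fam F n | f ∉ El F n} = Fam F n \ El F n := rfl
    have hfin : (El F n).Finite := e1.subset fun f hf => hf.1
    have h4 := Set.ncard_sdiff_add_ncard_of_subset (s := El F n) (t := Fam F n)
      (fun f hf => hf.1.1) c1
    rw [hs]
    omega
  · intro ε hε
    obtain ⟨N1, hN1⟩ := hLMU F h2 ε hε
    obtain ⟨N2, hN2⟩ := FN1.asym (Nat.card F) hq2 ((C : ℝ) + 1) (ε / 4) (by linarith)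
    obtain ⟨N3, hN3⟩ := FN1.asym (Nat.card F) hq2 3 (1 / 2) (by norm_num)
    refine ⟨max (max N1 N2) (max N3 1), fun n hn => ?_⟩
    have hn1 : N1 ≤ n := ((le_max_left _ _).trans (le_max_left _ _)).trans hn
    have hn2 : N2 ≤ n := ((le_max_right _ _).trans (le_max_left _ _)).trans hn
    have hn3 : N3 ≤ n := ((le_max_left _ _).trans (le_max_right _ _)).trans hn
    have hn4 : 1 ≤ n := ((le_max_right _ _).trans (le_max_right _ _)).trans hn
    obtain ⟨_, hsel⟩ := hN1 n hn1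
    obtain ⟨e1, e2, e3, e4, e5⟩ := hELN F h2 n hn4
    have hqR : (2 : ℝ) ≤ (Nat.card F : ℝ) := by exact_mod_cast hq2
    obtain ⟨q, hqdef⟩ : ∃ q : ℝ, q = (Nat.card F : ℝ) := ⟨_, rfl⟩
    obtain ⟨P, hP⟩ : ∃ P : ℝ, P = q ^ (10 * n + 3) := ⟨_, rfl⟩
    obtain ⟨P', hP'⟩ : ∃ P' : ℝ, P' = q ^ (11 * n + 3) := ⟨_, rfl⟩
    obtain ⟨Q, hQ⟩ : ∃ Q : ℝ, Q = q ^ (12 * n + 3) := ⟨_, rfl⟩
    have a2 := hN2 n hn2
    have a3 := hN3 n hn3
    rw [← hqdef, ← hP', ← hQ] at a2 a3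
    rw [← hqdef] at hqR
    have hP0 : 0 < P := by rw [hP]; positivity
    have hPP : P ≤ P' := by
      rw [hP, hP']
      exact pow_le_pow_right₀ (by linarith) (by omega)
    have hn0 : (0 : ℝ) ≤ n := Nat.cast_nonneg n
    have hC0 : (0 : ℝ) ≤ C := Nat.cast_nonneg C
    have hu1 : (1 : ℝ) ≤ ((n : ℝ) + 1) ^ 2 := one_le_pow₀ (by linarith)
    have hu2 : (n : ℝ) + 1 ≤ ((n : ℝ) + 1) ^ 2 := le_self_pow₀ (by linarith) two_ne_zero
    have hEfin : (El F n).Finite := e1.subset fun f hf => hf.1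
    have hEsub : El F n ⊆ Ell F n := fun f hf => hf.1
    have hDfin : (Ell F n \ El F n).Finite := e1.subset Set.sdiff_subset
    -- the three numbers
    obtain ⟨E, hE⟩ : ∃ E : ℝ, E = ((El F n).ncard : ℝ) := ⟨_, rfl⟩
    obtain ⟨L, hL⟩ : ∃ L : ℝ, L = ((Ell F n).ncard : ℝ) := ⟨_, rfl⟩
    obtain ⟨D, hD⟩ : ∃ D : ℝ, D = ((Ell F n \ El F n).ncard : ℝ) := ⟨_, rfl⟩
    have hLE : D + E = L := by
      have h4 := Set.ncard_sdiff_add_ncard_of_subset hEsub e1
      rw [hD, hE, hL]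
      exact_mod_cast h4
    have hDP : D ≤ P := by
      rw [hD, hP, hqdef]
      exact_mod_cast e5
    have hQE : Q ≤ E + 3 * P := by
      rw [hQ, hE, hP, hqdef]
      exact_mod_cast e4
    have hE0 : 0 ≤ E := by rw [hE]; exact Nat.cast_nonneg _
    have hD0 : 0 ≤ D := by rw [hD]; exact Nat.cast_nonneg _
    have h3P : 3 * P ≤ 1 / 2 * Q := by
      have : 3 * P ≤ 3 * ((n : ℝ) + 1) ^ 2 * P' := by nlinarith
      linarith
    have hQ2 : Q ≤ 2 * E := by linarith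
    have hCP : (C : ℝ) * ((n : ℝ) + 1) * P ≤ ε / 2 * E := by
      have t1 : (C : ℝ) * ((n : ℝ) + 1) * P ≤ ((C : ℝ) + 1) * ((n : ℝ) + 1) ^ 2 * P' := by
        apply mul_le_mul _ hPP hP0.le (by positivity)
        apply mul_le_mul (by linarith) hu2 (by positivity) (by positivity)
      have t2 : ε / 4 * Q ≤ ε / 4 * (2 * E) := mul_le_mul_of_nonneg_left hQ2 (by linarith)
      linarith
    have hPE : P ≤ ε / 2 * E := by
      have t1 : 1 * P ≤ (((C : ℝ) + 1) * ((n : ℝ) + 1) ^ 2) * P' := by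
        apply mul_le_mul _ hPP hP0.le (by positivity)
        nlinarith
      have t2 : ε / 4 * Q ≤ ε / 4 * (2 * E) := mul_le_mul_of_nonneg_left hQ2 (by linarith)
      linarith
    rw [← hE] at hsel
    rw [← hE, ← hL]
    have hlow : ∀ f ∈ El F n, (3 : ℝ) ^ Module.finrank ℤ (EK f) ≤ Nat.card (Sel3 f) := by
      intro f hf
      obtain ⟨_, g1, g2⟩ := h3 n f hf
      exact_mod_cast g2.trans g1
    refine ⟨hsel, ?_, ?_⟩
    · have h4 : ∑ᶠ f ∈ El F n, (6 : ℝ) * (Module.finrank ℤ (EK f) : ℝ) ≤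
          ∑ᶠ f ∈ El F n, ((Nat.card (Sel3 f) : ℝ) + 3) :=
        finsum_mem_le hEfin fun f hf => by
          have := hlow f hf
          have := FN1.six_mul_le (Module.finrank ℤ (EK f))
          linarith
      have h5 : ∑ᶠ f ∈ El F n, (6 : ℝ) * (Module.finrank ℤ (EK f) : ℝ) =
          6 * ∑ᶠ f ∈ El F n, (Module.finrank ℤ (EK f) : ℝ) := by
        rw [finsum_mem_eq_finite_toFinset_sum _ hEfin, finsum_mem_eq_finite_toFinset_sum _ hEfin,
          Finset.mul_sum]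
      have h6 : ∑ᶠ f ∈ El F n, ((Nat.card (Sel3 f) : ℝ) + 3) =
          ∑ᶠ f ∈ El F n, (Nat.card (Sel3 f) : ℝ) + E * 3 := by
        rw [finsum_mem_add_distrib hEfin, finsum_mem_const hEfin, hE]
      have h7 : ∑ᶠ f ∈ Ell F n \ El F n, (Module.finrank ℤ (EK f) : ℝ) ≤
          ∑ᶠ f ∈ Ell F n \ El F n, ((C : ℝ) * ((n : ℝ) + 1)) :=
        finsum_mem_le hDfin fun f hf => by
          have := (hC n f hf.1).2
          exact_mod_cast this
      rw [finsum_mem_const hDfin, ← hD] at h7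
      have h8 : D * ((C : ℝ) * ((n : ℝ) + 1)) ≤ (C : ℝ) * ((n : ℝ) + 1) * P := by
        rw [mul_comm]
        exact mul_le_mul_of_nonneg_left hDP (by positivity)
      have h9 : ∑ᶠ f ∈ Ell F n, (Module.finrank ℤ (EK f) : ℝ) =
          ∑ᶠ f ∈ El F n, (Module.finrank ℤ (EK f) : ℝ) +
            ∑ᶠ f ∈ Ell F n \ El F n, (Module.finrank ℤ (EK f) : ℝ) :=
        (finsum_mem_add_sdiff hEsub e1).symm
      rw [h9]
      have h10 : ε * D ≥ 0 := by positivity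
      have h11 : ε * E ≥ 0 := by positivity
      rw [← hLE]
      nlinarith
    · -- the curves of rank at least two
      obtain ⟨A, hA⟩ : ∃ A : Set (F[X] × F[X] × F[X]),
        A = {f | f ∈ El F n ∧ 2 ≤ Module.finrank ℤ (EK f)} := ⟨_, rfl⟩
      have hAE : A ⊆ El F n := by
        rw [hA]
        exact fun f hf => hf.1
      have hAfin : A.Finite := hEfin.subset hAE
      have hBfin : (El F n \ A).Finite := hEfin.subset Set.sdiff_subset
      have h4 : ∑ᶠ f ∈ El F n, (Nat.card (Sel3 f) : ℝ) =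
          ∑ᶠ f ∈ A, (Nat.card (Sel3 f) : ℝ) + ∑ᶠ f ∈ El F n \ A, (Nat.card (Sel3 f) : ℝ) :=
        (finsum_mem_add_sdiff hAE hEfin).symm
      have h5 : ∑ᶠ f ∈ A, (9 : ℝ) ≤ ∑ᶠ f ∈ A, (Nat.card (Sel3 f) : ℝ) :=
        finsum_mem_le hAfin fun f hf => by
          refine le_trans ?_ (hlow f (hAE hf))
          rw [hA] at hf
          calc (9 : ℝ) = 3 ^ 2 := by norm_num
            _ ≤ _ := pow_le_pow_right₀ (by norm_num) hf.2
      have h6 : ∑ᶠ f ∈ El F n \ A, (1 : ℝ) ≤ ∑ᶠ f ∈ El F n \ A, (Nat.card (Sel3 f) : ℝ) :=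
        finsum_mem_le hBfin fun f hf => by
          refine le_trans ?_ (hlow f hf.1)
          exact one_le_pow₀ (by norm_num)
      rw [finsum_mem_const hAfin] at h5
      rw [finsum_mem_const hBfin] at h6
      have h7 : ((El F n \ A).ncard : ℝ) + (A.ncard : ℝ) = E := by
        have := Set.ncard_sdiff_add_ncard_of_subset hAE hEfin
        rw [hE]
        exact_mod_cast this
      have h8 : ((El F n \ A).ncard : ℝ) ≤
          ({f ∈ Ell F n | Module.finrank ℤ (EK f) ≤ 1}.ncard : ℝ) := by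
        have hsub : El F n \ A ⊆ {f ∈ Ell F n | Module.finrank ℤ (EK f) ≤ 1} := by
          intro f hf
          refine ⟨hf.1.1, ?_⟩
          by_contra hcon
          exact hf.2 (by rw [hA]; exact ⟨hf.1, by omega⟩)
        exact_mod_cast Set.ncard_le_ncard hsub (e1.subset fun f hf => hf.1)
      refine le_trans ?_ h8
      have h10 : ε * D ≥ 0 := by positivity
      have h11 : ε * E ≥ 0 := by positivity
      rw [← hLE]
      rw [h4] at hsel
      nlinarith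

end Pool.Agent.H58.AV3B
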