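import Pool.Agent.H8.AV3.Stmts4
import Pool.Agent.H14.AVR.Stmts2

/-!
# RKO: ranks are at most linear in the height
-/

set_option autoImplicit false

namespace Pool.Agent.H58.AV3B

open Polynomial Matrix Pool.AVR Pool.AV3

theorem rko_thm (hST2 : Pool.AVR.ST2Stmt) (hMWL : Pool.AVR.MWLStmt) (hRNK2 : Pool.AVR.RNKStmt)
    (hDSC : Pool.AVR.DSCStmt) (hCNF : Pool.AVR.CNFStmt) : Pool.AV3.RKOStmt := by
  classical
  intro F _ _ h2
  have h2K : (2 : RatFunc F) ≠ 0 := by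
    intro h
    apply h2
    have h3 : algebraMap F (RatFunc F) 2 = algebraMap F (RatFunc F) 0 := by
      rw [map_ofNat, map_zero]
      exact h
    exact (algebraMap F (RatFunc F)).injective h3
  have hdiscmap : ∀ f : F[X] × F[X] × F[X],
      disc (algebraMap F[X] (RatFunc F) f.1) (algebraMap F[X] (RatFunc F) f.2.1)
        (algebraMap F[X] (RatFunc F) f.2.2) = algebraMap F[X] (RatFunc F)
          (disc f.1 f.2.1 f.2.2) := by
    intro f
    simp only [disc, map_add, map_sub, map_mul, map_pow, map_ofNat]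
  have hsep : ∀ f : F[X] × F[X] × F[X], (cubK f).Separable ↔ disc f.1 f.2.1 f.2.2 ≠ 0 := by
    intro f
    rw [cubK, (hDSC (RatFunc F) h2K _ _ _).1, hdiscmap]
    exact (map_ne_zero_iff _ (RatFunc.algebraMap_injective F))
  have hmono : ∀ n m, n ≤ m → Ell F n ⊆ Ell F m := by
    intro n m hnm f hf
    refine ⟨⟨hf.1.1.trans ?_, hf.1.2.1.trans ?_, hf.1.2.2.trans ?_⟩, hf.2⟩ <;> omega
  obtain ⟨N1, hN1⟩ := hST2 F h2 1 one_pos
  have hEllFin : ∀ n, ∀ f ∈ Ell F n, Finite (Mod2 (EK f)) := by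
    intro n f hf
    exact (hN1 (max n N1) (le_max_right _ _)).2.1 f (hmono _ _ (le_max_left _ _) hf)
  have hEllFG : ∀ n, ∀ f ∈ Ell F n, AddGroup.FG (EK f) := fun n f hf =>
    hMWL F h2 f ((hsep f).2 hf.2) (hEllFin n f hf)
  have hq2 : 2 ≤ Nat.card F := Finite.one_lt_card
  obtain ⟨a, ha⟩ := pow_unbounded_of_one_lt
    (1 + 2 / ((1 - 1 / (Nat.card F : ℝ)) * (1 - 1 / (Nat.card F : ℝ) ^ 2)) + 1)
    (by norm_num : (1 : ℝ) < 2)
  refine ⟨a + Nat.card F * (12 * (N1 + 1) + 3) + Nat.card F * 12, fun n f hf => ?_⟩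
  refine ⟨hEllFG n f hf, ?_⟩
  have hf' : f ∈ Ell F (n + (N1 + 1)) := hmono _ _ (by omega) hf
  obtain ⟨h3, h4, h5⟩ := hN1 (n + (N1 + 1)) (by omega)
  have h6 : (Nat.card (Mod2 (EK f)) : ℝ) ≤
      ∑ᶠ f ∈ Ell F (n + (N1 + 1)), (Nat.card (Mod2 (EK f)) : ℝ) := by
    rw [finsum_mem_eq_finite_toFinset_sum _ h3]
    exact Finset.single_le_sum (f := fun f => (Nat.card (Mod2 (EK f)) : ℝ))
      (fun i _ => Nat.cast_nonneg _) (h3.mem_toFinset.2 hf')
  have h7 : ((Ell F (n + (N1 + 1))).ncard : ℝ) ≤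
      (Nat.card F : ℝ) ^ (12 * (n + (N1 + 1)) + 3) := by
    obtain ⟨c1, c2, _⟩ := hCNF F h2 (n + (N1 + 1)) (by omega)
    have h8 : (Ell F (n + (N1 + 1))).ncard ≤ (Fam F (n + (N1 + 1))).ncard :=
      Set.ncard_le_ncard (fun f hf => hf.1) c1
    rw [c2] at h8
    exact_mod_cast h8
  have hle : (2 : ℝ) ^ Module.finrank ℤ (EK f) ≤ Nat.card (Mod2 (EK f)) := by
    have := (hRNK2 (EK f) (hEllFG n f hf)).2.1
    exact_mod_cast this
  have h8 : (2 : ℝ) ^ Module.finrank ℤ (EK f) ≤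
      2 ^ a * (Nat.card F : ℝ) ^ (12 * (n + (N1 + 1)) + 3) := by
    refine hle.trans (h6.trans (h5.trans ?_))
    exact mul_le_mul ha.le h7 (Nat.cast_nonneg _) (by positivity)
  have h9 : (Nat.card F : ℝ) ≤ 2 ^ (Nat.card F) := by
    exact_mod_cast (Nat.lt_two_pow_self (n := Nat.card F)).le
  have h10 : (2 : ℝ) ^ Module.finrank ℤ (EK f) ≤
      2 ^ (a + Nat.card F * (12 * (n + (N1 + 1)) + 3)) := by
    refine h8.trans ?_
    have e : (2 : ℝ) ^ (a + Nat.card F * (12 * (n + (N1 + 1)) + 3)) =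
        2 ^ a * ((2 : ℝ) ^ Nat.card F) ^ (12 * (n + (N1 + 1)) + 3) := by
      rw [pow_add, pow_mul]
    rw [e]
    exact mul_le_mul_of_nonneg_left (pow_le_pow_left₀ (by positivity) h9 _) (by positivity)
  have h11 : Module.finrank ℤ (EK f) ≤ a + Nat.card F * (12 * (n + (N1 + 1)) + 3) :=
    (pow_le_pow_iff_right₀ (by norm_num : (1 : ℝ) < 2)).1 h10
  refine h11.trans ?_
  have e1 : (a + Nat.card F * (12 * (N1 + 1) + 3) + Nat.card F * 12) * (n + 1) =
      (a + Nat.card F * (12 * (n + (N1 + 1)) + 3)) + Nat.card F * 12 +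
      (a + Nat.card F * (12 * (N1 + 1) + 3)) * n := by ring
  rw [e1, add_assoc]
  exact Nat.le_add_right _ _

end Pool.Agent.H58.AV3B
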