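import Pool.Agent.H8.AV3.Stmts2

/-!
# Smooth plane cubics with a rational flex have a Weierstrass equation
-/

set_option autoImplicit false

namespace Pool.Agent.H58.AV3B

open Matrix Pool.AV3

/-- Smoothness is invariant under equivalence. -/
theorem Smt_eqv {K L : Type} [Field K] [Field L] (φ : K →+* L) {g : Matrix (Fin 3) (Fin 3) K}
    {c c' : Fin 10 → K} (h : Eqv g c c') (hs : Smt φ c) : Smt φ c' := by
  have h' := h.map φ
  have hdet := h'.1
  intro v hv h0
  have hgv : (g.map φ) *ᵥ v ≠ 0 := by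
    intro h1
    apply hv
    have h2 : (g.map φ)⁻¹ *ᵥ ((g.map φ) *ᵥ v) = v := by
      rw [Matrix.mulVec_mulVec, Matrix.nonsing_inv_mul _ hdet, Matrix.one_mulVec]
    rw [h1, Matrix.mulVec_zero] at h2
    exact h2.symm
  obtain ⟨w, hw⟩ := hs _ hgv (by rw [h'.tev, h0, mul_zero])
  refine ⟨(g.map φ)⁻¹ *ᵥ w, fun h1 => hw ?_⟩
  have h2 : (g.map φ) *ᵥ ((g.map φ)⁻¹ *ᵥ w) = w := by
    rw [Matrix.mulVec_mulVec, Matrix.mul_nonsing_inv _ hdet, Matrix.one_mulVec]
  rw [← h2, h'.tder, h1, mul_zero]

/-- Completion of two independent vectors. -/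
theorem complete3 {K : Type} [Field K] {A B : Fin 3 → K} (hA : A ≠ 0) (hB : ∀ r : K, B ≠ r • A) :
    ∃ C : Fin 3 → K, (!![A 0, B 0, C 0; A 1, B 1, C 1; A 2, B 2, C 2]).det ≠ 0 := by
  by_contra hcon
  push Not at hcon
  have h0 := hcon ![1, 0, 0]
  have h1 := hcon ![0, 1, 0]
  have h2 := hcon ![0, 0, 1]
  rw [Matrix.det_fin_three] at h0 h1 h2
  simp at h0 h1 h2
  have e0 : A 1 * B 2 = B 1 * A 2 := by linear_combination h0
  have e1 : A 0 * B 2 = B 0 * A 2 := by linear_combination -h1
  have e2 : A 0 * B 1 = B 0 * A 1 := by linear_combination h2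
  by_cases a0 : A 0 = 0
  · by_cases a1 : A 1 = 0
    · by_cases a2 : A 2 = 0
      · exact hA (by funext i; fin_cases i <;> assumption)
      · refine hB (B 2 / A 2) ?_
        funext i
        fin_cases i
        · simp only [Fin.zero_eta, Pi.smul_apply, smul_eq_mul]
          field_simp
          linear_combination -e1
        · simp only [Fin.mk_one, Pi.smul_apply, smul_eq_mul]
          field_simp
          linear_combination -e0
        · simp only [Fin.reduceFinMk, Pi.smul_apply, smul_eq_mul]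
          field_simp
    · refine hB (B 1 / A 1) ?_
      funext i
      fin_cases i
      · simp only [Fin.zero_eta, Pi.smul_apply, smul_eq_mul]
        field_simp
        linear_combination -e2
      · simp only [Fin.mk_one, Pi.smul_apply, smul_eq_mul]
        field_simp
      · simp only [Fin.reduceFinMk, Pi.smul_apply, smul_eq_mul]
        field_simp
        linear_combination e0
  · refine hB (B 0 / A 0) ?_
    funext i
    fin_cases i
    · simp only [Fin.zero_eta, Pi.smul_apply, smul_eq_mul]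
      field_simp
    · simp only [Fin.mk_one, Pi.smul_apply, smul_eq_mul]
      field_simp
      linear_combination e2
    · simp only [Fin.reduceFinMk, Pi.smul_apply, smul_eq_mul]
      field_simp
      linear_combination e1

/-- The normal form. -/
theorem flex_normal {K : Type} [Field K] [Infinite K] (h2 : (2 : K) ≠ 0) {c : Fin 10 → K}
    (c0 : c 0 = 0) (c1 : c 1 = 0) (c3 : c 3 = 0) (c2 : c 2 ≠ 0) (c6 : c 6 ≠ 0) :
    ∃ (g : Matrix (Fin 3) (Fin 3) K) (f : K × K × K), Eqv g c (FO f.1 f.2.1 f.2.2) := by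
  obtain ⟨τ, hτ⟩ : ∃ τ : K, 2 * τ = 1 := ⟨2⁻¹, mul_inv_cancel₀ h2⟩
  have hdet : (!![-(c 4 * τ), 1, c 5 * c 6 * c 2 * τ; c 2, 0, 0; 0, 0, -(c 6 * c 2 ^ 2)] :
      Matrix (Fin 3) (Fin 3) K).det = c 6 * c 2 ^ 3 := by
    rw [Matrix.det_fin_three]
    simp
    ring
  refine ⟨!![-(c 4 * τ), 1, c 5 * c 6 * c 2 * τ; c 2, 0, 0; 0, 0, -(c 6 * c 2 ^ 2)],
    (c 4 ^ 2 * τ ^ 2 - c 7 * c 2, c 6 * c 2 * (c 8 * c 2 - c 4 * c 5 * τ),
      c 6 ^ 2 * c 2 ^ 2 * (c 5 ^ 2 * τ ^ 2 - c 9 * c 2)), ?_⟩
  refine eqv_of_tev ?_ fun v => ?_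
  · rw [hdet]
    exact mul_ne_zero c6 (pow_ne_zero _ c2)
  · rw [hdet]
    simp only [tev, mulVec3, FO, Matrix.cons_val, c0, c1, c3, Matrix.of_apply]
    have t1 : τ * 2 = 1 := by rw [mul_comm, hτ]
    generalize v 0 = M
    generalize v 1 = X
    generalize v 2 = Z
    generalize c 2 = a2 at *
    generalize c 4 = a4
    generalize c 5 = a5
    generalize c 6 = a6 at *
    generalize c 7 = a7
    generalize c 8 = a8
    generalize c 9 = a9
    linear_combination (a6 * a2 ^ 3 * a4 * (M * X * Z) - a6 * a2 ^ 3 * a4 ^ 2 * τ * (M ^ 2 * Z) -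
      a6 ^ 2 * a2 ^ 4 * a5 * (X * Z ^ 2) + a6 ^ 2 * a2 ^ 4 * a5 * a4 * τ * (M * Z ^ 2) -
      a6 ^ 3 * a2 ^ 5 * a5 ^ 2 * τ * Z ^ 3) * hτ

theorem wng_thm : WNGStmt := by
  intro K _ _ h2 c hs A B κ hA hB hAB
  obtain ⟨C, hC⟩ := complete3 hA hB
  set g : Matrix (Fin 3) (Fin 3) K := !![A 0, B 0, C 0; A 1, B 1, C 1; A 2, B 2, C 2] with hg
  have colA : (fun i => g i 0) = A := by
    funext i
    fin_cases i <;> rfl
  have colB : (fun i => g i 1) = B := by
    funext i
    fin_cases i <;> rfl
  have hu : IsUnit g.det := isUnit_iff_ne_zero.2 hC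
  -- the new form
  have hE : Eqv g c (g.det⁻¹ • tsub c g) := by
    refine ⟨hu, ?_⟩
    rw [smul_smul, mul_inv_cancel₀ hC, one_smul]
  set c' := g.det⁻¹ • tsub c g with hc'
  have hs' := Smt_eqv (algebraMap K (AlgebraicClosure K)) hE hs
  have hA0 : tev c A = 0 := by
    have := hAB 1 0
    simpa using this
  have hB0 : tev c B = κ := by
    have := hAB 0 1
    simpa using this
  have hsum : tder c A B + tder c B A = 0 := by
    have := hAB 1 1
    rw [taylor, hA0, hB0] at this
    linear_combination this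
  have hdif : -tder c A B + tder c B A = 0 := by
    have := hAB 1 (-1)
    rw [taylor, hA0, hB0] at this
    linear_combination this
  have hBA : tder c B A = 0 := by
    have : (2 : K) * tder c B A = 0 := by linear_combination hsum + hdif
    exact (mul_eq_zero.mp this).resolve_left h2
  have hAB' : tder c A B = 0 := by linear_combination hsum - hBA
  have c0 : c' 0 = 0 := by
    simp only [hc', Pi.smul_apply, tsub, Matrix.cons_val, colA, hA0, smul_zero]
  have c1 : c' 1 = 0 := by
    simp only [hc', Pi.smul_apply, tsub, Matrix.cons_val, colA, colB, hAB', smul_zero]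
  have c3 : c' 3 = 0 := by
    simp only [hc', Pi.smul_apply, tsub, Matrix.cons_val, colA, colB, hBA, smul_zero]
  have c2 : c' 2 ≠ 0 := by
    intro h
    obtain ⟨w, hw⟩ := hs' ![1, 0, 0] (by
      intro h
      have := congrFun h 0
      simp at this) (by simp [tev, c0])
    apply hw
    simp [tder, c0, c1, h]
  have c6 : c' 6 ≠ 0 := by
    intro h
    -- a root of the quadratic
    obtain ⟨z, hz⟩ : ∃ z : AlgebraicClosure K,
        algebraMap K (AlgebraicClosure K) (c' 2) * z ^ 2 +
          algebraMap K (AlgebraicClosure K) (c' 4) * z +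
          algebraMap K (AlgebraicClosure K) (c' 7) = 0 := by
      have ha : algebraMap K (AlgebraicClosure K) (c' 2) ≠ 0 := by
        rw [Ne, FaithfulSMul.algebraMap_eq_zero_iff]
        exact c2
      obtain ⟨z, hz⟩ := IsAlgClosed.exists_root
        (Polynomial.C (algebraMap K (AlgebraicClosure K) (c' 2)) * Polynomial.X ^ 2 +
          Polynomial.C (algebraMap K (AlgebraicClosure K) (c' 4)) * Polynomial.X +
          Polynomial.C (algebraMap K (AlgebraicClosure K) (c' 7)))
        (by rw [Polynomial.degree_quadratic ha]; norm_num)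
      refine ⟨z, ?_⟩
      rw [Polynomial.IsRoot] at hz
      simpa using hz
    obtain ⟨w, hw⟩ := hs' ![z, 1, 0] (by
      intro h
      have := congrFun h 1
      simp at this) (by simp [tev, c0, c1, c3, h])
    apply hw
    simp only [tder, c0, c1, c3, h, Matrix.cons_val, map_zero]
    linear_combination w 2 * hz
  obtain ⟨g', f, hf⟩ := flex_normal h2 c0 c1 c3 c2 c6
  exact ⟨g * g', f, hE.trans hf⟩

end Pool.Agent.H58.AV3B
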