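import Pool.Agent.H1.AV3.TRA
import Pool.Agent.H1.AV3B.ETA
import Pool.Agent.H1.AV3B.LCU3
import Pool.Agent.H1.AV3B.SMO
import Pool.Agent.H11.AV3.FLX
import Pool.Agent.H15.AV3B.WCT
import Pool.Agent.H15.AVR.STAB
import Pool.Agent.H16.AV3B.DVP
import Pool.Agent.H16.AV3B.SEC
import Pool.Agent.H17.AV3.KYS3
import Pool.Agent.H17.AV3.LOP
import Pool.Agent.H17.AV3.RNK
import Pool.Agent.H17.AV3.VDI
import Pool.Agent.H18.AV3B.NSU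
import Pool.Agent.H18.AV3B.SCC
import Pool.Agent.H19.AV3B.GLB3
import Pool.Agent.H19.AV3B.LVA
import Pool.Agent.H2.AV3B.MPL
import Pool.Agent.H2.AV3B.TLW
import Pool.Agent.H2.AVR.AAV
import Pool.Agent.H2.AVR.BIR
import Pool.Agent.H2.AVR.NRM
import Pool.Agent.H2.AVR.RNK
import Pool.Agent.H22.AV3B.T3N
import Pool.Agent.H22.AV3B.TOR3
import Pool.Agent.H25.AVR.DSC
import Pool.Agent.H28.AV3B.AVW
import Pool.Agent.H28.AV3B.LMU3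
import Pool.Agent.H28.AV3B.LVB
import Pool.Agent.H29.AVS.FDN
import Pool.Agent.H3.AV3B.EXC3
import Pool.Agent.H31.AV3.GRC
import Pool.Agent.H33.AV3.FLT
import Pool.Agent.H33.AV3.ONT
import Pool.Agent.H33.AVR.CHP
import Pool.Agent.H33.AVR.DE5
import Pool.Agent.H33.AVR.INJ
import Pool.Agent.H33.AVR.RED
import Pool.Agent.H34.AV3.ACT
import Pool.Agent.H34.AV3.CNV
import Pool.Agent.H35.AV3B.LIF
import Pool.Agent.H35.AV3B.ST1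
import Pool.Agent.H37.AVS.EBU
import Pool.Agent.H4.AVR.DEN
import Pool.Agent.H4.AVR.ICB
import Pool.Agent.H41.AV3B.RDI
import Pool.Agent.H41.AV3B.RDP
import Pool.Agent.H42.AV3.CPR
import Pool.Agent.H42.AV3.UNQ
import Pool.Agent.H43.AVS.CPI
import Pool.Agent.H45.AVR.CHB
import Pool.Agent.H46.AVR.BAS
import Pool.Agent.H46.AVR.HOM
import Pool.Agent.H47.AV3B.FIB
import Pool.Agent.H47.AV3B.MTS
import Pool.Agent.H48.AV3B.ELN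
import Pool.Agent.H49.AV3.TRS
import Pool.Agent.H49.AV3B.CLI
import Pool.Agent.H49.AV3B.CLT
import Pool.Agent.H49.AVR.GRP
import Pool.Agent.H5.AVS.RIP
import Pool.Agent.H52.AV3B.NTE
import Pool.Agent.H53.AVS.CPP
import Pool.Agent.H55.AV3B.EMB3
import Pool.Agent.H55.AV3B.SUF
import Pool.Agent.H57.AV3.LAT
import Pool.Agent.H57.AV3B.NSI
import Pool.Agent.H57.AVR.MWL
import Pool.Agent.H57.AVR.SCL
import Pool.Agent.H58.AV3.NFX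
import Pool.Agent.H58.AV3B.FN2
import Pool.Agent.H58.AV3B.RKO
import Pool.Agent.H58.AV3B.WNG
import Pool.Agent.H58.AVR.KEY
import Pool.Agent.H59.AVR.DNI
import Pool.Agent.H60.AV3B.BXE
import Pool.Agent.H62.AVR.ISO
import Pool.Agent.H62.AVR.PLL
import Pool.Agent.H64.AV3B.LOI
import Pool.Agent.H64.AVR.ST1
import Pool.Agent.H65.AV3B.NDN
import Pool.Agent.H65.AV3B.NSH
import Pool.Agent.H65.AVR.LAT
import Pool.Agent.H65.AVR.STE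
import Pool.Agent.H69.AV3B.ST9
import Pool.Agent.H69.AVS.POL
import Pool.Agent.H70.AV3.GLC
import Pool.Agent.H70.AV3.NFO3
import Pool.Agent.H70.AV3.REG
import Pool.Agent.H70.AV3.SGG
import Pool.Agent.H70.AV3.SGR
import Pool.Agent.H71.AV3B.JIN
import Pool.Agent.H71.AV3B.TRG
import Pool.Agent.H72.AV3B.GAF
import Pool.Agent.H72.AV3B.GIR
import Pool.Agent.H72.AV3B.JER
import Pool.Agent.H72.AV3B.MK
import Pool.Agent.H72.AV3B.TRA3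
import Pool.Agent.H74.AV3.SNG
import Pool.Agent.H75.AVR.LN2
import Pool.Agent.H80.AVS.GLU
import Pool.Agent.H82.AVR.LDP
import Pool.Agent.H83.AVR.EQB
import Pool.Agent.H84.AV3B.EQP3
import Pool.Agent.H84.AV3B.ZE3
import Pool.Agent.H85.AVR.KER
import Pool.Agent.H85.AVS.APX
import Pool.Agent.H86.AVR.DEL
import Pool.Agent.H87.AV3.TRB
import Pool.Agent.H87.AV3.TRC
import Pool.Agent.H87.AV3B.INF3
import Pool.Agent.H87.AVR.ZET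
import Pool.Agent.H9.AV3.INJ
import Pool.Agent.H95.AV3B.LTL
import Pool.Agent.H95.AV3B.MAS3
import Pool.Agent.H95.AV3B.STL
import Pool.Agent.H95.AV3B.TRV
import Pool.Agent.H95.AVR.ACT
import Pool.Agent.H95.AVR.CNF
import Pool.Agent.H96.AVR.ST2
import Pool.Agent.H98.AVS.RII
import Pool.Agent.H99.AVR.CNB
import Pool.Agent.H99.AVR.FIN

/-!
# Three-descent over `F(t)`: all modules of stage 2 together
-/

set_option autoImplicit false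

namespace Pool.AV3

/-- The statements which are used in stage 3, without hypotheses, and the final statement of
stage 2. -/
theorem av3b_all :
    Pool.AV3.LATStmt ∧ Pool.AV3.ONTStmt ∧ Pool.AV3.INJStmt ∧ Pool.AV3.UNQStmt ∧
    Pool.AV3.CNVStmt ∧ Pool.AV3.GRCStmt ∧ Pool.AV3.GIRStmt ∧ Pool.AV3.DVPStmt ∧
    Pool.AV3.EQRStmt ∧ Pool.AV3.JERStmt ∧ Pool.AV3.SECStmt ∧ Pool.AV3.SCCStmt ∧
    Pool.AV3.CLTStmt ∧ Pool.AV3.TOR3Stmt ∧ Pool.AV3.MAS3Stmt ∧ Pool.AV3.NSHStmt ∧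
    Pool.AV3.VDIStmt ∧ Pool.AV3.BXEStmt ∧ Pool.AV3.LVAStmt ∧ Pool.AV3.LVBStmt ∧
    Pool.AV3.EQP3Stmt ∧ Pool.AV3.JINStmt ∧ Pool.AV3.ELNStmt ∧ Pool.AV3.WCTStmt ∧
    Pool.AV3.ST9Stmt ∧ Pool.AV3.GPRStmt ∧ Pool.AV3.RDPStmt ∧ Pool.AV3.RDIStmt ∧
    Pool.AV3.TRGStmt ∧ Pool.AV3.LAVStmt ∧ Pool.AV3.EXC3Stmt ∧ Pool.AV3.REGStmt ∧
    Pool.AV3.LMU3Stmt ∧ Pool.AV3.FLTStmt ∧ Pool.AVS.RIPStmt ∧ Pool.AVS.RIIStmt ∧
    Pool.AVS.CPPStmt ∧ Pool.AVS.CPIStmt ∧ Pool.AVS.POLStmt ∧ Pool.AVS.EBUStmt ∧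
    Pool.AVS.FDNStmt ∧ Pool.AVR.DSCStmt ∧ Pool.AVR.DELStmt ∧ Pool.AVR.DE5Stmt ∧
    Pool.AVR.LN2Stmt ∧ Pool.AV3.FN2Stmt := by
  have aLAT : Pool.AV3.LATStmt := Pool.Agent.H57.AV3.LAT_thm
  have aONT : Pool.AV3.ONTStmt := Pool.AV3.ont_thm
  have aTRA : Pool.AV3.TRAStmt := Pool.Agent.H1.AV3.TRA_thm
  have aTRB : Pool.AV3.TRBStmt := Pool.Agent.H87.AV3.TRB_thm
  have aTRC : Pool.AV3.TRCStmt := Pool.Agent.H87.AV3.TRC_thm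
  have aTRS : Pool.AV3.TRSStmt := Pool.Agent.H49.AV3.trs_thm aTRA aTRB aTRC
  have aFLT : Pool.AV3.FLTStmt := Pool.AV3.flt_thm
  have aNFX : Pool.AV3.NFXStmt := Pool.Agent.H58.AV3.nfx_thm
  have aUNQ : Pool.AV3.UNQStmt := Pool.Agent.H42.AV3.unq_thm
  have aINJ : Pool.AV3.INJStmt := Pool.Agent.H9.AV3.inj_thm aONT aTRS aFLT aNFX aUNQ
  have aCNV : Pool.AV3.CNVStmt := Pool.Agent.H34.AV3.CNV_thm
  have aGRC : Pool.AV3.GRCStmt := Pool.AV3.GRC_thm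
  have aGIR : Pool.AV3.GIRStmt := Pool.Agent.H72.AV3B.gir_thm
  have aDVP : Pool.AV3.DVPStmt := Pool.Agent.H16.AV3B.dvp_thm
  have aEQR : Pool.AV3.EQRStmt := Pool.Agent.H72.AV3B.eqr_thm
  have aJER : Pool.AV3.JERStmt := Pool.Agent.H72.AV3B.jer_thm
  have sCPP : Pool.AVS.CPPStmt := Pool.AVS.cpp_thm
  have sCPI : Pool.AVS.CPIStmt := Pool.AVS.cpi_thm
  have rDSC : Pool.AVR.DSCStmt := Pool.AVR.DSC_thm
  have aSEC : Pool.AV3.SECStmt := Pool.Agent.H16.AV3B.sec_thm sCPP sCPI rDSC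
  have aSCL : Pool.AV3.SCLStmt := Pool.Agent.H42.AV3.scl_thm
  have aSCC : Pool.AV3.SCCStmt := Pool.Agent.H18.AV3B.scc_thm aSCL
  have aSNG : Pool.AV3.SNGStmt := Pool.Agent.H74.AV3.SNG_thm
  have aSMO : Pool.AV3.SMOStmt := Pool.Agent.H1.AV3B.smo_thm aSNG rDSC
  have aWNG : Pool.AV3.WNGStmt := Pool.Agent.H58.AV3B.wng_thm
  have aCLT : Pool.AV3.CLTStmt := Pool.Agent.H49.AV3B.clt_thm aTRS aFLT aSMO aWNG aJER rDSC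
  have aTOR3 : Pool.AV3.TOR3Stmt := Pool.Agent.H22.AV3B.tor3_thm
  have aREG : Pool.AV3.REGStmt := Pool.AV3.REG_thm
  have aLIF : Pool.AV3.LIFStmt := Pool.Agent.H35.AV3B.lif_thm aREG
  have aSGR : Pool.AV3.SGRStmt := Pool.AV3.SGR_thm
  have aNFO3 : Pool.AV3.NFO3Stmt := Pool.AV3.NFO3_thm
  have aSGG : Pool.AV3.SGGStmt := Pool.AV3.SGG_thm
  have aNTE : Pool.AV3.NTEStmt := Pool.Agent.H52.AV3B.nte_thm aREG
  have aNSU : Pool.AV3.NSUStmt := Pool.Agent.H18.AV3B.nsu_thm aNTE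
  have aGLC : Pool.AV3.GLCStmt := Pool.AV3.GLC_thm
  have aMAS3 : Pool.AV3.MAS3Stmt :=
    Pool.Agent.H95.AV3B.MAS3_thm aREG aLIF aSGR aNFO3 aSGG aNSU aGLC aJER
  have aNSH : Pool.AV3.NSHStmt := Pool.Agent.H65.AV3B.nsh_thm
  have aVDI : Pool.AV3.VDIStmt := Pool.AV3.vdi_thm
  have aJIN : Pool.AV3.JINStmt := Pool.Agent.H71.AV3B.JIN_thm
  have aBXE : Pool.AV3.BXEStmt := Pool.Agent.H60.AV3B.bxe_thm aNSH aJIN
  have aLVA : Pool.AV3.LVAStmt := Pool.Agent.H19.AV3B.lva_thm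
  have aEXC3 : Pool.AV3.EXC3Stmt := Pool.Agent.H3.AV3B.exc3_thm
  have aNDN : Pool.AV3.NDNStmt := Pool.Agent.H65.AV3B.ndn_thm
  have aNSI : Pool.AV3.NSIStmt := Pool.Agent.H57.AV3B.nsi_thm
  have aLVB : Pool.AV3.LVBStmt := Pool.Agent.H28.AV3B.lvb_thm aMAS3 aEXC3 aNDN aNSI aNSH aLVA aREG
  have aEQP3 : Pool.AV3.EQP3Stmt := Pool.Agent.H84.AV3B.eqp3_thm
  have rCNF : Pool.AVR.CNFStmt := Pool.AVR.cnf_thm
  have aELN : Pool.AV3.ELNStmt := Pool.Agent.H48.AV3B.eln_thm rCNF rDSC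
  have sGLU : Pool.AVS.GLUStmt := Pool.AVS.glu_thm
  have sPOL : Pool.AVS.POLStmt := Pool.AVS.pol_thm
  have rBIR : Pool.AVR.BIRStmt := Pool.AVR.bir_thm
  have aGLB3 : Pool.AV3.GLB3Stmt := Pool.Agent.H19.AV3B.glb3_thm sGLU sPOL rBIR aVDI aDVP aGIR
  have aINF3 : Pool.AV3.INF3Stmt := Pool.Agent.H87.AV3B.inf3_thm
  have aLAV : Pool.AV3.LAVStmt := Pool.Agent.H87.AV3B.lav_thm aCLT aTOR3 aINF3
  have aTRG : Pool.AV3.TRGStmt := Pool.Agent.H71.AV3B.TRG_thm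
  have aLTL : Pool.AV3.LTLStmt := Pool.Agent.H95.AV3B.LTL_thm aLAT
  have sEBW : Pool.AVS.EBWStmt := Pool.AVS.ebw_thm
  have aLCU3 : Pool.AV3.LCU3Stmt := Pool.Agent.H1.AV3B.lcu3_thm aLAV aTRG aLTL sEBW rDSC aEQR aDVP
  have sAPX : Pool.AVS.APXStmt := Pool.AVS.apx_thm
  have aTRA3 : Pool.AV3.TRA3Stmt := Pool.Agent.H72.AV3B.tra3_thm sAPX aDVP
  have aLUG3 : Pool.AV3.LUG3Stmt := Pool.Agent.H72.AV3B.lug3_thm aLCU3 aTRA3 aDVP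
  have sRIP : Pool.AVS.RIPStmt := Pool.AVS.rip_thm
  have aLOP : Pool.AV3.LOPStmt := Pool.AV3.lop_thm aSEC aLUG3 sRIP
  have sRII : Pool.AVS.RIIStmt := Pool.AVS.rii_thm
  have aLOI : Pool.AV3.LOIStmt := Pool.Agent.H64.AV3B.loi_thm aSEC aSCC aLUG3 sRII
  have aKYS3 : Pool.AV3.KYS3Stmt := Pool.AV3.kys3_thm aGLB3 aLOP aLOI aSEC aVDI aDVP
  have aACT : Pool.AV3.ACTStmt := Pool.Agent.H34.AV3.ACT_thm
  have aGAF : Pool.AV3.GAFStmt := Pool.Agent.H72.AV3B.gaf_thm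
  have aMKE : Pool.AV3.MKEStmt := Pool.Agent.H72.AV3B.mke_thm
  have aMKG : Pool.AV3.MKGStmt := Pool.Agent.H72.AV3B.mkg_thm
  have aRDP : Pool.AV3.RDPStmt := Pool.Agent.H41.AV3B.rdp_thm
  have aRDI : Pool.AV3.RDIStmt := Pool.Agent.H41.AV3B.rdi_thm
  have aMPL : Pool.AV3.MPLStmt :=
    Pool.Agent.H2.AV3B.mpl_thm aGLB3 aACT aGAF aMKE aMKG aRDP aRDI aVDI aDVP aGIR
  have aMKQ : Pool.AV3.MKQStmt := Pool.Agent.H72.AV3B.mkq_thm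
  have aMKR : Pool.AV3.MKRStmt := Pool.Agent.H72.AV3B.mkr_thm
  have aFIB : Pool.AV3.FIBStmt := Pool.Agent.H47.AV3B.fib_thm aMKQ aMKR aRDP aRDI aDVP
  have aGPR : Pool.AV3.GPRStmt := Pool.Agent.H72.AV3B.gpr_thm
  have aETA : Pool.AV3.ETAStmt := Pool.Agent.H1.AV3B.eta_thm aJER aSEC
  have aTRV : Pool.AV3.TRVStmt := Pool.Agent.H95.AV3B.TRV_thm aJER aSEC aSMO aWNG
  have aWCT : Pool.AV3.WCTStmt :=
    Pool.Agent.H15.AV3B.wct_thm aKYS3 aLOP aLOI aMPL aFIB aGPR aETA aTRV aSEC aGRC aCNV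
  have aSTL : Pool.AV3.STLStmt := Pool.Agent.H95.AV3B.STL_thm aINJ aUNQ aCLT aTOR3 rDSC
  have aST9 : Pool.AV3.ST9Stmt := Pool.Agent.H69.AV3B.st9_thm aSTL aTOR3 aINF3 aSEC
  have aWUG3 : Pool.AV3.WUG3Stmt := Pool.Agent.H60.AV3B.wug3_thm aWCT aBXE
  have aT3N : Pool.AV3.T3NStmt := Pool.Agent.H22.AV3B.t3n_thm
  have aST1 : Pool.AV3.ST1Stmt := Pool.Agent.H35.AV3B.st1_thm aSTL aT3N aINF3 aSEC sRIP
  have aSUF : Pool.AV3.SUFStmt := Pool.Agent.H55.AV3B.suf_thm aJIN aCNV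
  have aAVW : Pool.AV3.AVWStmt := Pool.Agent.H28.AV3B.avw_thm aEQP3 aLVA aLVB
  have aTLW : Pool.AV3.TLWStmt := Pool.Agent.H2.AV3B.tlw_thm aLVA aCNV aGRC
  have aMTS : Pool.AV3.MTSStmt := Pool.Agent.H47.AV3B.mts_thm aGRC
  have rZET : Pool.AVR.ZETStmt := Pool.AVR.zet_thm
  have aZE3 : Pool.AV3.ZE3Stmt := Pool.Agent.H84.AV3B.ze3_thm
  have aLMU3 : Pool.AV3.LMU3Stmt :=
    Pool.Agent.H28.AV3B.lmu3_thm aWUG3 aST9 aST1 aSUF aAVW aTLW aMTS aELN aNSI rZET aZE3 aCNV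
    aLVA
  have sEBU : Pool.AVS.EBUStmt := Pool.AVS.ebu_thm
  have sFDN : Pool.AVS.FDNStmt := Pool.AVS.fdn_thm
  have rDEL : Pool.AVR.DELStmt := Pool.AVR.del_thm
  have rDE5 : Pool.AVR.DE5Stmt := Pool.AVR.de5_thm
  have rLN2 : Pool.AVR.LN2Stmt := Pool.AVR.ln2_thm
  have aFLX : Pool.AV3.FLXStmt := Pool.Agent.H11.AV3.flx_thm aONT aTRS aNFX
  have aCLI : Pool.AV3.CLIStmt := Pool.Agent.H49.AV3B.cli_thm aINJ aFLX rDSC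
  have aEMB3 : Pool.AV3.EMB3Stmt := Pool.Agent.H55.AV3B.emb3_thm aSEC aCLI
  have rLAT : Pool.AVR.LATStmt := Pool.AVR.lat_thm
  have rDEN : Pool.AVR.DENStmt := Pool.AVR.den_thm
  have rDNI : Pool.AVR.DNIStmt := Pool.AVR.dni_thm
  have rSCL : Pool.AVR.SCLStmt := Pool.AVR.scl_thm
  have rBAS : Pool.AVR.BASStmt := Pool.AVR.bas_thm
  have rCHB : Pool.AVR.CHBStmt := Pool.AVR.chb_thm
  have rNRM : Pool.AVR.NRMStmt := Pool.AVR.nrm_thm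
  have rKEY : Pool.AVR.KEYStmt := Pool.AVR.key_thm rLAT rDEN rDNI rSCL rBAS rCHB rBIR rNRM
  have rCHP : Pool.AVR.CHPStmt := Pool.AVR.chp_thm
  have rINJ : Pool.AVR.INJStmt := Pool.AVR.inj_thm
  have rKER : Pool.AVR.KERStmt := Pool.AVR.KER_thm
  have rHOM : Pool.AVR.HOMStmt := Pool.AVR.hom_thm rKER
  have rISO : Pool.AVR.ISOStmt := Pool.AVR.iso_thm
  have rACT : Pool.AVR.ACTStmt := Pool.AVR.act_thm
  have rGRP : Pool.AVR.GRPStmt := Pool.AVR.grp_thm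
  have rCNB : Pool.AVR.CNBStmt := Pool.AVR.cnb_thm
  have rFIN : Pool.AVR.FINStmt :=
    Pool.AVR.fin_thm rKEY rCHP rCHB rINJ rHOM rISO rKER rACT rGRP rCNB
  have rSTAB : Pool.AVR.STABStmt := Pool.AVR.STAB_thm
  have rST1 : Pool.AVR.ST1Stmt := Pool.AVR.st1_thm rFIN rSTAB rGRP rCNB rCNF
  have rSTE : Pool.AVR.STEStmt := Pool.AVR.ste_thm
  have rLDP : Pool.AVR.LDPStmt := Pool.AVR.ldp_thm
  have rICB : Pool.AVR.ICBStmt := Pool.AVR.icb_thm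
  have rEQB : Pool.AVR.EQBStmt := Pool.AVR.eqb_thm
  have rRED : Pool.AVR.REDStmt := Pool.AVR.red_thm rLDP rICB rEQB
  have rST2 : Pool.AVR.ST2Stmt := Pool.AVR.ST2.st2_thm rST1 rFIN rSTE rRED rGRP rCNB rCNF rDSC
  have rAAV : Pool.AVR.AAVStmt := Pool.AVR.aav_thm
  have rPLL : Pool.AVR.PLLStmt := Pool.AVR.pll_thm
  have rMWL : Pool.AVR.MWLStmt := Pool.AVR.mwl_thm rAAV rPLL rDSC
  have rRNK : Pool.AVR.RNKStmt := Pool.AVR.rnk_thm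
  have aRKO : Pool.AV3.RKOStmt := Pool.Agent.H58.AV3B.rko_thm rST2 rMWL rRNK rDSC rCNF
  have aRNK : Pool.AV3.RNKStmt := Pool.Agent.H17.AV3.rnk_thm
  have aFN2 : Pool.AV3.FN2Stmt := Pool.Agent.H58.AV3B.fn2_of aLMU3 aEMB3 aRKO aELN aRNK rCNF
  exact ⟨aLAT, aONT, aINJ, aUNQ, aCNV, aGRC, aGIR, aDVP, aEQR, aJER, aSEC, aSCC, aCLT, aTOR3, aMAS3,
    aNSH, aVDI, aBXE, aLVA, aLVB, aEQP3, aJIN, aELN, aWCT, aST9, aGPR, aRDP, aRDI, aTRG, aLAV,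
    aEXC3, aREG, aLMU3, aFLT, sRIP, sRII, sCPP, sCPI, sPOL, sEBU, sFDN, rDSC, rDEL, rDE5, rLN2,
    aFN2⟩

/-- FN2: the final statement of stage 2, without hypotheses. -/
theorem fn2_thm : FN2Stmt := by
  obtain ⟨_, _, _, _, _, _, _, _, _, _, _, _, _, _, _, _, _, _, _, _, _, _, _, _, _, _, _, _, _, _, _,
    _, _, _, _, _, _, _, _, _, _, _, _, _, _, h⟩ := av3b_all
  exact h

/-- The statements used in stage 3. -/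
theorem av3b_for_av3c :
    Pool.AV3.LATStmt ∧ Pool.AV3.ONTStmt ∧ Pool.AV3.INJStmt ∧ Pool.AV3.UNQStmt ∧
    Pool.AV3.CNVStmt ∧ Pool.AV3.GRCStmt ∧ Pool.AV3.GIRStmt ∧ Pool.AV3.DVPStmt ∧
    Pool.AV3.EQRStmt ∧ Pool.AV3.JERStmt ∧ Pool.AV3.SECStmt ∧ Pool.AV3.SCCStmt ∧
    Pool.AV3.CLTStmt ∧ Pool.AV3.TOR3Stmt ∧ Pool.AV3.MAS3Stmt ∧ Pool.AV3.NSHStmt ∧
    Pool.AV3.VDIStmt ∧ Pool.AV3.BXEStmt ∧ Pool.AV3.LVAStmt ∧ Pool.AV3.LVBStmt ∧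
    Pool.AV3.EQP3Stmt ∧ Pool.AV3.JINStmt ∧ Pool.AV3.ELNStmt ∧ Pool.AV3.WCTStmt ∧
    Pool.AV3.ST9Stmt ∧ Pool.AV3.GPRStmt ∧ Pool.AV3.RDPStmt ∧ Pool.AV3.RDIStmt ∧
    Pool.AV3.TRGStmt ∧ Pool.AV3.LAVStmt ∧ Pool.AV3.EXC3Stmt ∧ Pool.AV3.REGStmt ∧
    Pool.AV3.LMU3Stmt ∧ Pool.AV3.FLTStmt ∧ Pool.AVS.RIPStmt ∧ Pool.AVS.RIIStmt ∧
    Pool.AVS.CPPStmt ∧ Pool.AVS.CPIStmt ∧ Pool.AVS.POLStmt ∧ Pool.AVS.EBUStmt ∧
    Pool.AVS.FDNStmt ∧ Pool.AVR.DSCStmt ∧ Pool.AVR.DELStmt ∧ Pool.AVR.DE5Stmt ∧ Pool.AVR.LN2Stmt := by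
  obtain ⟨h0, h1, h2, h3, h4, h5, h6, h7, h8, h9, h10, h11, h12, h13, h14, h15, h16, h17, h18, h19,
    h20, h21, h22, h23, h24, h25, h26, h27, h28, h29, h30, h31, h32, h33, h34, h35, h36, h37,
    h38, h39, h40, h41, h42, h43, h44, _⟩ := av3b_all
  exact ⟨h0, h1, h2, h3, h4, h5, h6, h7, h8, h9, h10, h11, h12, h13, h14, h15, h16, h17, h18, h19,
    h20, h21, h22, h23, h24, h25, h26, h27, h28, h29, h30, h31, h32, h33, h34, h35, h36, h37,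
    h38, h39, h40, h41, h42, h43, h44⟩

end Pool.AV3
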